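import Pool.Agent.Lib.MP_0b721b_ag.Nf.Gb

/-!
# Project FUJ, Nf: fibres of an ideal of `K[x]` over all subrings of `K`

`fib I φ` (`φ : B →+* R`, `B` a subring of `K`): the ideal of `R[x]` generated by `I ∩ B[x]`.
For `B` large enough it is compatible with sums and with `I : a`.
-/

set_option autoImplicit false

open MvPolynomial

namespace FujNf

variable {σ : Type*} {K : Type*} [Field K]

/-- the ideal of `R[x]` generated by `I ∩ B[x]` -/
noncomputable def fib (I : Ideal (MvPolynomial σ K)) {B : Subring K} {R : Type*} [CommRing R]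
    (φ : B →+* R) : Ideal (MvPolynomial σ R) :=
  (cut I B).map (map φ)

theorem fib_mono {I J : Ideal (MvPolynomial σ K)} (h : I ≤ J) {B : Subring K} {R : Type*}
    [CommRing R] (φ : B →+* R) : fib I φ ≤ fib J φ :=
  Ideal.map_mono (Ideal.comap_mono h)

theorem map_mem_fib {I : Ideal (MvPolynomial σ K)} {B : Subring K} {R : Type*}
    [CommRing R] (φ : B →+* R) {f : MvPolynomial σ B} (h : map B.subtype f ∈ I) :
    map φ f ∈ fib I φ := Ideal.mem_map_of_mem _ h

/-- change of the coefficient ring -/
theorem fib_comp (I : Ideal (MvPolynomial σ K)) {B : Subring K} {R R' : Type*}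
    [CommRing R] [CommRing R'] (φ : B →+* R) (ψ : R →+* R') :
    fib I (ψ.comp φ) = (fib I φ).map (map ψ) := by
  unfold fib
  rw [Ideal.map_map]
  congr 1
  refine RingHom.ext fun f => ?_
  rw [RingHom.comp_apply, map_map]

theorem fib_top {B : Subring K} {R : Type*} [CommRing R] (φ : B →+* R) :
    fib (⊤ : Ideal (MvPolynomial σ K)) φ = ⊤ := by
  unfold fib cut
  rw [Ideal.comap_top, Ideal.map_top]

/-- **the standard monomials are a basis modulo all fibres** -/
theorem exists_std_fib.{u, v, w} {σ : Type u} {K : Type v} [Field K] [Finite σ]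
    (I : Ideal (MvPolynomial σ K)) :
    ∃ (S : Set (σ →₀ ℕ)) (G : Finset (MvPolynomial σ K)),
      ∀ B : Subring K, (cofs G : Set K) ⊆ B → ∀ (R : Type w) [CommRing R] (φ : B →+* R),
        IsNf (fib I φ) S := by
  obtain ⟨S, G, _, h⟩ := exists_std I
  exact ⟨S, G, fun B hB R _ φ => (h B hB).1.map φ⟩

theorem cofs_mono {G G' : Finset (MvPolynomial σ K)} (h : G ⊆ G') : cofs G ⊆ cofs G' := by
  classical
  intro x hx
  obtain ⟨g, hg, hx⟩ := Finset.mem_biUnion.1 hx
  exact Finset.mem_biUnion.2 ⟨g, h hg, hx⟩

/-- the elements of `I ∩ B[x]` are combinations over `B` of given generators -/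
theorem cut_le_span [Finite σ] {ι : Type*} [Fintype ι] (I : Ideal (MvPolynomial σ K))
    (h : ι → MvPolynomial σ K) (hI : I ≤ Ideal.span (Set.range h)) :
    ∃ G : Finset (MvPolynomial σ K), ∀ B : Subring K, (cofs G : Set K) ⊆ B →
      ∀ h' : ι → MvPolynomial σ B, (∀ t, map B.subtype (h' t) = h t) →
        cut I B ≤ Ideal.span (Set.range h') := by
  classical
  obtain ⟨S, G, h1, h2⟩ := exists_std I
  have hch : ∀ g : MvPolynomial σ K, ∃ c : ι → MvPolynomial σ K, g ∈ G → ∑ t, c t * h t = g := by
    intro g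
    by_cases hg : g ∈ G
    · obtain ⟨c, hc⟩ := Ideal.mem_span_range_iff_exists_fun.1 (hI (h1 g hg))
      exact ⟨c, fun _ => hc⟩
    · exact ⟨0, fun h => absurd h hg⟩
  choose c hc using hch
  refine ⟨G ∪ G.biUnion fun g => Finset.univ.image (c g), fun B hB h' hh' => ?_⟩
  have hB1 : (cofs G : Set K) ⊆ B :=
    (Finset.coe_subset.2 (cofs_mono Finset.subset_union_left)).trans hB
  rw [(h2 B hB1).2, Ideal.span_le]
  intro g' hg'
  have hg : map B.subtype g' ∈ G := hg'
  have hl : ∀ t, ∃ c' : MvPolynomial σ B, map B.subtype c' = c (map B.subtype g') t := by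
    intro t
    refine exists_lift B _ ((Finset.coe_subset.2 (coeffs_subset_cofs ?_)).trans hB)
    refine Finset.mem_union_right _ (Finset.mem_biUnion.2 ⟨_, hg, ?_⟩)
    exact Finset.mem_image_of_mem _ (Finset.mem_univ t)
  choose c' hc' using hl
  have h3 : g' = ∑ t, c' t * h' t := by
    apply map_injective B.subtype (subtype_inj B)
    rw [map_sum]
    simp_rw [map_mul, hc', hh']
    exact (hc _ hg).symm
  rw [h3]
  exact Ideal.sum_mem _ fun t _ => Ideal.mul_mem_left _ _ (Ideal.subset_span ⟨t, rfl⟩)

/-- adding one element -/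
theorem cut_sup_span [Finite σ] (I : Ideal (MvPolynomial σ K)) (a : MvPolynomial σ K) :
    ∃ G : Finset (MvPolynomial σ K), ∀ B : Subring K, (cofs G : Set K) ⊆ B →
      ∀ a' : MvPolynomial σ B, map B.subtype a' = a →
        cut (I ⊔ Ideal.span {a}) B = cut I B ⊔ Ideal.span {a'} := by
  classical
  obtain ⟨T, hT⟩ := (IsNoetherian.noetherian I : I.FG)
  obtain ⟨G, hG⟩ := cut_le_span (ι := Option T) (I ⊔ Ideal.span {a})
    (fun t => t.elim a (fun x => (x : MvPolynomial σ K))) (by
      refine sup_le ?_ ?_
      · rw [← hT]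
        refine Ideal.span_le.2 fun x hx => Ideal.subset_span ⟨some ⟨x, hx⟩, rfl⟩
      · refine Ideal.span_le.2 fun x hx => Ideal.subset_span ⟨none, ?_⟩
        exact (Set.mem_singleton_iff.1 hx).symm)
  refine ⟨G ∪ T, fun B hB a' ha' => le_antisymm ?_ ?_⟩
  · have hl : ∀ t : T, ∃ t' : MvPolynomial σ B, map B.subtype t' = t := fun t =>
      exists_lift B _ ((Finset.coe_subset.2 (coeffs_subset_cofs
        (Finset.mem_union_right _ t.2))).trans hB)
    choose t' ht' using hl
    refine (hG B ((Finset.coe_subset.2 (cofs_mono Finset.subset_union_left)).trans hB)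
      (fun t => t.elim a' t') ?_).trans ?_
    · rintro (_ | t)
      · exact ha'
      · exact ht' t
    · refine Ideal.span_le.2 ?_
      rintro _ ⟨(_ | t), rfl⟩
      · exact Ideal.mem_sup_right (Ideal.mem_span_singleton_self a')
      · refine Ideal.mem_sup_left ?_
        change map B.subtype (t' t) ∈ I
        rw [ht', ← hT]
        exact Ideal.subset_span t.2
  · refine sup_le (Ideal.comap_mono le_sup_left) ?_
    refine Ideal.span_le.2 fun x hx => ?_
    rw [Set.mem_singleton_iff.1 hx]
    change map B.subtype a' ∈ I ⊔ Ideal.span {a}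
    rw [ha']
    exact Ideal.mem_sup_right (Ideal.mem_span_singleton_self a)

theorem fib_sup_span.{u, v, w} {σ : Type u} {K : Type v} [Field K] [Finite σ]
    (I : Ideal (MvPolynomial σ K)) (a : MvPolynomial σ K) :
    ∃ G : Finset (MvPolynomial σ K), ∀ B : Subring K, (cofs G : Set K) ⊆ B →
      ∀ a' : MvPolynomial σ B, map B.subtype a' = a → ∀ (R : Type w) [CommRing R] (φ : B →+* R),
        fib (I ⊔ Ideal.span {a}) φ = fib I φ ⊔ Ideal.span {map φ a'} := by
  obtain ⟨G, hG⟩ := cut_sup_span I a
  refine ⟨G, fun B hB a' ha' R _ φ => ?_⟩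
  unfold fib
  rw [hG B hB a' ha', Ideal.map_sup, Ideal.map_span, Set.image_singleton]

/-- **the ideal `J = (I : a)`** -/
theorem fib_colon.{u, v, w} {σ : Type u} {K : Type v} [Field K] [Finite σ]
    (I J : Ideal (MvPolynomial σ K)) (a : MvPolynomial σ K) (hJ : ∀ f, f ∈ J ↔ a * f ∈ I) :
    ∃ G : Finset (MvPolynomial σ K), ∀ B : Subring K, (cofs G : Set K) ⊆ B →
      ∀ a' : MvPolynomial σ B, map B.subtype a' = a → ∀ (R : Type w) [CommRing R] (φ : B →+* R)
        (f : MvPolynomial σ R), map φ a' * f ∈ fib I φ ↔ f ∈ fib J φ := by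
  classical
  obtain ⟨SJ, GJ, _, hGJ⟩ := exists_std J
  obtain ⟨SA, GA, _, hGA⟩ := exists_std (I ⊔ Ideal.span {a})
  obtain ⟨G, hG⟩ := cut_sup_span I a
  refine ⟨G ∪ (GJ ∪ GA), fun B hB a' ha' R _ φ f => ⟨fun hf => ?_, fun hf => ?_⟩⟩
  · have hB1 : (cofs G : Set K) ⊆ B :=
      (Finset.coe_subset.2 (cofs_mono Finset.subset_union_left)).trans hB
    have hB2 : (cofs GJ : Set K) ⊆ B :=
      (Finset.coe_subset.2 (cofs_mono (Finset.subset_union_left.trans
        Finset.subset_union_right))).trans hB
    have hB3 : (cofs GA : Set K) ⊆ B :=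
      (Finset.coe_subset.2 (cofs_mono (Finset.subset_union_right.trans
        Finset.subset_union_right))).trans hB
    obtain ⟨L, hL1, hL2, hL3, hL4⟩ := (hGJ B hB2).1.exists_lin
    obtain ⟨N, hN1, hN2, hN3, hN4⟩ := (hGA B hB3).1.exists_lin
    have hex : ∀ h : MvPolynomial σ B, ∃ e, h - N h - a' * e ∈ cut I B := by
      intro h
      have h1 := hN2 h
      rw [hG B hB1 a' ha'] at h1
      obtain ⟨y, hy, z, hz, hyz⟩ := Submodule.mem_sup.1 h1
      obtain ⟨e, rfl⟩ := Ideal.mem_span_singleton'.1 hz
      refine ⟨e, ?_⟩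
      rw [← hyz, mul_comm a' e, add_sub_cancel_right]
      exact hy
    have hcan : ∀ e : MvPolynomial σ B, a' * e ∈ cut I B → L e = 0 := by
      intro e he
      refine hL3 e ?_
      rw [mem_cut, hJ]
      rw [mem_cut, map_mul, ha'] at he
      exact he
    choose e he using hex
    have huniq : ∀ h e', h - N h - a' * e' ∈ cut I B → L (e h) = L e' := by
      intro h e' he'
      rw [← sub_eq_zero, ← map_sub]
      refine hcan _ ?_
      have := Ideal.sub_mem _ he' (he h)
      rwa [sub_sub_sub_cancel_left, ← mul_sub] at this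
    let ρ : MvPolynomial σ B →ₗ[B] MvPolynomial σ B :=
      { toFun := fun h => L (e h)
        map_add' := by
          intro x y
          rw [← map_add]
          refine huniq _ _ ?_
          have := Ideal.add_mem _ (he x) (he y)
          have e1 : x + y - N (x + y) - a' * (e x + e y)
              = x - N x - a' * e x + (y - N y - a' * e y) := by
            rw [map_add]
            ring
          rw [e1]
          exact this
        map_smul' := by
          intro b x
          rw [RingHom.id_apply, ← map_smul]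
          refine huniq _ _ ?_
          have e1 : b • x - N (b • x) - a' * (b • e x) = C b * (x - N x - a' * e x) := by
            rw [map_smul, smul_eq_C_mul, smul_eq_C_mul, smul_eq_C_mul]
            ring
          rw [e1]
          exact Ideal.mul_mem_left _ _ (he x) }
    have hρ : ∀ x, ρ x = L (e x) := fun _ => rfl
    have hρ0 : ∀ x ∈ cut I B, ρ x = 0 := by
      intro x hx
      have h1 : N x = 0 := hN3 x (Ideal.comap_mono le_sup_left hx)
      rw [hρ, huniq x 0 (by rw [h1, sub_zero, mul_zero, sub_zero]; exact hx), map_zero]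
    have hρa : ∀ x, ρ (a' * x) = L x := by
      intro x
      have h1 : N (a' * x) = 0 := by
        refine hN3 _ ?_
        rw [mem_cut, map_mul, ha']
        exact Ideal.mul_mem_right _ _ (Ideal.mem_sup_right (Ideal.mem_span_singleton_self a))
      rw [hρ]
      refine huniq _ _ ?_
      rw [h1, sub_zero, sub_self]
      exact Ideal.zero_mem _
    have hbc : ∀ x : MvPolynomial σ R, bc φ ρ (map φ a' * x) = bc φ L x := by
      intro x
      induction x using MvPolynomial.induction_on' with
      | monomial α b =>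
        have h1 : (monomial α b : MvPolynomial σ R) = b • map φ (monomial α 1) := by
          rw [map_monomial, map_one, ← monomial_eq_smul]
        rw [h1, mul_smul_comm, map_smul, map_smul, ← map_mul, bc_map, bc_map, hρa]
      | add p q hp hq => rw [mul_add, map_add, map_add, hp, hq]
    have h1 : bc φ L f = 0 := by
      rw [← hbc]
      exact bc_zero φ ρ _ hρ0 _ hf
    have h2 := bc_sub_mem φ L hL2 f
    rwa [h1, sub_zero] at h2
  · unfold fib Ideal.map at hf
    induction hf using Submodule.span_induction with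
    | mem y hy =>
      obtain ⟨z, hz, rfl⟩ := hy
      rw [← map_mul]
      refine map_mem_fib φ ?_
      rw [map_mul, ha']
      exact (hJ _).1 hz
    | zero => rw [mul_zero]; exact Ideal.zero_mem _
    | add y z _ _ hy hz => rw [mul_add]; exact Ideal.add_mem _ hy hz
    | smul r y _ hy =>
      rw [smul_eq_mul, mul_left_comm]
      exact Ideal.mul_mem_left _ _ hy

end FujNf
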