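import Mathlib

/-!
# Project FUJ, Nf: base change of linear maps and of complements of ideals in polynomial rings

`IsNf J S` : the polynomials supported in `S` are a complement of the ideal `J`.  It is stable
under every change of the coefficient ring.
-/

set_option autoImplicit false

open MvPolynomial

namespace FujNf

variable {σ : Type*}

section bc

variable {B R : Type*} [CommRing B] [CommRing R] (φ : B →+* R)

/-- base change of a linear map of polynomial rings -/
noncomputable def bc (L : MvPolynomial σ B →ₗ[B] MvPolynomial σ B) :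
    MvPolynomial σ R →ₗ[R] MvPolynomial σ R :=
  (basisMonomials σ R).constr R (fun α => map φ (L (monomial α 1)))

theorem monomial_eq_smul {A : Type*} [CommRing A] (α : σ →₀ ℕ) (a : A) :
    monomial α a = a • (monomial α 1 : MvPolynomial σ A) := by
  rw [smul_monomial, smul_eq_mul, mul_one]

theorem bc_monomial (L : MvPolynomial σ B →ₗ[B] MvPolynomial σ B) (α : σ →₀ ℕ) (a : R) :
    bc φ L (monomial α a) = a • map φ (L (monomial α 1)) := by
  rw [monomial_eq_smul, map_smul]
  congr 1
  unfold bc
  have h : (monomial α 1 : MvPolynomial σ R) = basisMonomials σ R α := by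
    rw [coe_basisMonomials]
  rw [h, Module.Basis.constr_basis]

theorem map_smul_poly (b : B) (f : MvPolynomial σ B) : map φ (b • f) = φ b • map φ f := by
  rw [smul_eq_C_mul, smul_eq_C_mul, map_mul, map_C]

theorem bc_map (L : MvPolynomial σ B →ₗ[B] MvPolynomial σ B) (f : MvPolynomial σ B) :
    bc φ L (map φ f) = map φ (L f) := by
  induction f using MvPolynomial.induction_on' with
  | monomial α a =>
    rw [map_monomial, bc_monomial, ← map_smul_poly, ← map_smul, ← monomial_eq_smul]
  | add p q hp hq => rw [map_add, map_add, hp, hq, map_add, map_add]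

theorem mul_mem_span_map (J : Ideal (MvPolynomial σ B)) (r x : MvPolynomial σ R)
    (hx : x ∈ Submodule.span R (map φ '' (J : Set (MvPolynomial σ B)))) :
    r * x ∈ Submodule.span R (map φ '' (J : Set (MvPolynomial σ B))) := by
  induction r using MvPolynomial.induction_on generalizing x with
  | C a =>
    rw [← smul_eq_C_mul]
    exact Submodule.smul_mem _ _ hx
  | add p q hp hq =>
    rw [add_mul]
    exact Submodule.add_mem _ (hp x hx) (hq x hx)
  | mul_X p i hp =>
    rw [mul_assoc]
    refine hp _ ?_
    clear hp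
    induction hx using Submodule.span_induction with
    | mem y hy =>
      obtain ⟨z, hz, rfl⟩ := hy
      refine Submodule.subset_span ⟨X i * z, J.mul_mem_left _ hz, ?_⟩
      rw [map_mul, map_X]
    | zero => rw [mul_zero]; exact Submodule.zero_mem _
    | add y z _ _ hy hz => rw [mul_add]; exact Submodule.add_mem _ hy hz
    | smul a y _ hy => rw [mul_smul_comm]; exact Submodule.smul_mem _ _ hy

/-- the extension of an ideal is the span over the coefficients -/
theorem mem_map_iff (J : Ideal (MvPolynomial σ B)) (f : MvPolynomial σ R) :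
    f ∈ J.map (map φ) ↔ f ∈ Submodule.span R (map φ '' (J : Set (MvPolynomial σ B))) := by
  constructor
  · intro h
    unfold Ideal.map at h
    induction h using Submodule.span_induction with
    | mem y hy => exact Submodule.subset_span hy
    | zero => exact Submodule.zero_mem _
    | add y z _ _ hy hz => exact Submodule.add_mem _ hy hz
    | smul a y _ hy =>
      rw [smul_eq_mul]
      exact mul_mem_span_map φ J a y hy
  · intro h
    have h1 : Submodule.span R (map φ '' (J : Set (MvPolynomial σ B))) ≤
        (J.map (map φ)).restrictScalars R := by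
      refine Submodule.span_le.2 ?_
      rintro _ ⟨z, hz, rfl⟩
      exact Ideal.mem_map_of_mem _ hz
    exact h1 h

theorem bc_zero (L : MvPolynomial σ B →ₗ[B] MvPolynomial σ B) (J : Ideal (MvPolynomial σ B))
    (h : ∀ f ∈ J, L f = 0) (f : MvPolynomial σ R) (hf : f ∈ J.map (map φ)) : bc φ L f = 0 := by
  rw [mem_map_iff] at hf
  induction hf using Submodule.span_induction with
  | mem y hy =>
    obtain ⟨z, hz, rfl⟩ := hy
    rw [bc_map, h z hz, map_zero]
  | zero => rw [map_zero]
  | add y z _ _ hy hz => rw [map_add, hy, hz, add_zero]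
  | smul a y _ hy => rw [map_smul, hy, smul_zero]

/-- two additive maps which agree on the monomials `a x^α` agree -/
theorem mem_of_monomials {A M : Type*} [CommRing A] [AddCommGroup M]
    (F : MvPolynomial σ A → M) (hF : ∀ f g, F (f + g) = F f + F g)
    (N : AddSubgroup M) (h : ∀ α a, F (monomial α a) ∈ N) (f : MvPolynomial σ A) : F f ∈ N := by
  induction f using MvPolynomial.induction_on' with
  | monomial α a => exact h α a
  | add p q hp hq =>
    rw [hF]
    exact N.add_mem hp hq

end bc

section supp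

variable {A : Type*} [CommRing A]

/-- polynomials supported in `S` -/
def supIn (A : Type*) [CommRing A] (S : Set (σ →₀ ℕ)) : Submodule A (MvPolynomial σ A) where
  carrier := {f | ∀ c ∈ f.support, c ∈ S}
  zero_mem' := by
    intro c hc
    rw [support_zero] at hc
    exact absurd hc (Finset.notMem_empty c)
  add_mem' := by
    classical
    intro f g hf hg c hc
    rcases Finset.mem_union.1 (support_add hc) with h | h
    · exact hf c h
    · exact hg c h
  smul_mem' := by
    intro a f hf c hc
    exact hf c (support_smul hc)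

theorem mem_supIn {S : Set (σ →₀ ℕ)} {f : MvPolynomial σ A} :
    f ∈ supIn A S ↔ ∀ c ∈ f.support, c ∈ S := Iff.rfl

theorem monomial_mem_supIn {S : Set (σ →₀ ℕ)} {c : σ →₀ ℕ} (hc : c ∈ S) (a : A) :
    monomial c a ∈ supIn A S := by
  classical
  intro d hd
  rw [support_monomial] at hd
  split_ifs at hd with h
  · exact absurd hd (Finset.notMem_empty d)
  · rw [Finset.mem_singleton.1 hd]
    exact hc

theorem map_mem_supIn {R : Type*} [CommRing R] (φ : A →+* R) {S : Set (σ →₀ ℕ)}
    {f : MvPolynomial σ A} (hf : f ∈ supIn A S) : map φ f ∈ supIn R S :=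
  fun c hc => hf c (support_map_subset φ f hc)

end supp

section nf

variable {B : Type*} [CommRing B]

/-- the polynomials supported in `S` are a complement of the ideal `J` -/
def IsNf (J : Ideal (MvPolynomial σ B)) (S : Set (σ →₀ ℕ)) : Prop :=
  (∀ f, ∃ r ∈ supIn B S, f - r ∈ J) ∧ ∀ r ∈ J, r ∈ supIn B S → r = 0

theorem IsNf.exists_lin {J : Ideal (MvPolynomial σ B)} {S : Set (σ →₀ ℕ)} (h : IsNf J S) :
    ∃ L : MvPolynomial σ B →ₗ[B] MvPolynomial σ B, (∀ f, L f ∈ supIn B S) ∧
      (∀ f, f - L f ∈ J) ∧ (∀ f ∈ J, L f = 0) ∧ ∀ f ∈ supIn B S, L f = f := by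
  choose r hr1 hr2 using h.1
  have huniq : ∀ f r', r' ∈ supIn B S → f - r' ∈ J → r f = r' := by
    intro f r' h1 h2
    have h3 : r f - r' ∈ J := by
      have := J.sub_mem h2 (hr2 f)
      rwa [sub_sub_sub_cancel_left] at this
    exact sub_eq_zero.1 (h.2 _ h3 (Submodule.sub_mem _ (hr1 f) h1))
  refine ⟨{ toFun := r, map_add' := ?_, map_smul' := ?_ }, hr1, hr2, ?_, ?_⟩
  · intro f g
    refine huniq _ _ (Submodule.add_mem _ (hr1 f) (hr1 g)) ?_
    have := J.add_mem (hr2 f) (hr2 g)
    rwa [← add_sub_add_comm] at this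
  · intro a f
    refine huniq _ _ (Submodule.smul_mem _ _ (hr1 f)) ?_
    rw [RingHom.id_apply, ← smul_sub, smul_eq_C_mul]
    exact J.mul_mem_left _ (hr2 f)
  · intro f hf
    exact huniq f 0 (Submodule.zero_mem _) (by rwa [sub_zero])
  · intro f hf
    exact huniq f f hf (by rw [sub_self]; exact J.zero_mem)

theorem IsNf.of_lin {J : Ideal (MvPolynomial σ B)} {S : Set (σ →₀ ℕ)}
    (L : MvPolynomial σ B → MvPolynomial σ B) (h1 : ∀ f, L f ∈ supIn B S)
    (h2 : ∀ f, f - L f ∈ J) (h3 : ∀ f ∈ J, L f = 0) (h4 : ∀ f ∈ supIn B S, L f = f) :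
    IsNf J S :=
  ⟨fun f => ⟨L f, h1 f, h2 f⟩, fun r hr hs => by rw [← h4 r hs, h3 r hr]⟩

variable {R : Type*} [CommRing R] (φ : B →+* R)

theorem bc_mem_supIn {S : Set (σ →₀ ℕ)} (L : MvPolynomial σ B →ₗ[B] MvPolynomial σ B)
    (h : ∀ f, L f ∈ supIn B S) (f : MvPolynomial σ R) : bc φ L f ∈ supIn R S := by
  induction f using MvPolynomial.induction_on' with
  | monomial α a =>
    rw [bc_monomial]
    exact Submodule.smul_mem _ _ (map_mem_supIn φ (h _))
  | add p q hp hq =>
    rw [map_add]
    exact Submodule.add_mem _ hp hq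

theorem bc_sub_mem {J : Ideal (MvPolynomial σ B)} (L : MvPolynomial σ B →ₗ[B] MvPolynomial σ B)
    (h : ∀ f, f - L f ∈ J) (f : MvPolynomial σ R) : f - bc φ L f ∈ J.map (map φ) := by
  induction f using MvPolynomial.induction_on' with
  | monomial α a =>
    have h1 : (monomial α a : MvPolynomial σ R) = a • map φ (monomial α 1) := by
      rw [map_monomial, map_one, ← monomial_eq_smul]
    rw [bc_monomial, h1, ← smul_sub, ← map_sub, smul_eq_C_mul]
    exact Ideal.mul_mem_left _ _ (Ideal.mem_map_of_mem _ (h _))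
  | add p q hp hq =>
    have := Ideal.add_mem _ hp hq
    rw [map_add]
    rwa [← add_sub_add_comm] at this

theorem bc_fix {S : Set (σ →₀ ℕ)} (L : MvPolynomial σ B →ₗ[B] MvPolynomial σ B)
    (h : ∀ f ∈ supIn B S, L f = f) (f : MvPolynomial σ R) (hf : f ∈ supIn R S) : bc φ L f = f := by
  classical
  have h1 : bc φ L f = ∑ c ∈ f.support, bc φ L (monomial c (coeff c f)) := by
    conv_lhs => rw [f.as_sum]
    rw [map_sum]
  rw [h1]
  conv_rhs => rw [f.as_sum]
  refine Finset.sum_congr rfl fun c hc => ?_
  rw [bc_monomial, h _ (monomial_mem_supIn (hf c hc) 1), map_monomial, map_one, ← monomial_eq_smul]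

/-- **complements of ideals are stable under change of coefficients** -/
theorem IsNf.map {J : Ideal (MvPolynomial σ B)} {S : Set (σ →₀ ℕ)} (h : IsNf J S) :
    IsNf (J.map (MvPolynomial.map φ)) S := by
  obtain ⟨L, h1, h2, h3, h4⟩ := h.exists_lin
  exact IsNf.of_lin (bc φ L) (bc_mem_supIn φ L h1) (bc_sub_mem φ L h2) (bc_zero φ L J h3)
    (bc_fix φ L h4)

/-- the quotient by an ideal with a complement is free on the standard monomials -/
theorem IsNf.free {J : Ideal (MvPolynomial σ B)} {S : Set (σ →₀ ℕ)} (h : IsNf J S) :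
    Module.Free B (MvPolynomial σ B ⧸ J) := by
  classical
  have hli : LinearIndependent B
      (fun c : S => (Ideal.Quotient.mk J (monomial (c : σ →₀ ℕ) (1 : B)))) := by
    rw [linearIndependent_iff']
    intro s g hg i hi
    have h1 : (∑ i ∈ s, monomial (i : σ →₀ ℕ) (g i) : MvPolynomial σ B) ∈ J := by
      rw [← Ideal.Quotient.eq_zero_iff_mem, map_sum, ← hg]
      refine Finset.sum_congr rfl fun i _ => ?_
      rw [monomial_eq_smul, ← Ideal.Quotient.mkₐ_eq_mk B, map_smul]
    have h2 : (∑ i ∈ s, monomial (i : σ →₀ ℕ) (g i) : MvPolynomial σ B) ∈ supIn B S :=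
      Submodule.sum_mem _ fun i _ => monomial_mem_supIn i.2 _
    have h3 := congrArg (coeff (i : σ →₀ ℕ)) (h.2 _ h1 h2)
    rw [coeff_sum, coeff_zero, Finset.sum_eq_single i, coeff_monomial, if_pos rfl] at h3
    · exact h3
    · intro j _ hj
      rw [coeff_monomial, if_neg (fun e => hj (Subtype.ext e))]
    · intro hi'
      exact absurd hi hi'
  have hsp : ⊤ ≤ Submodule.span B (Set.range
      (fun c : S => (Ideal.Quotient.mk J (monomial (c : σ →₀ ℕ) (1 : B))))) := by
    intro x _
    obtain ⟨f, rfl⟩ := Ideal.Quotient.mk_surjective x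
    obtain ⟨r, hr1, hr2⟩ := h.1 f
    have h1 : Ideal.Quotient.mk J f = Ideal.Quotient.mk J r := Ideal.Quotient.eq.2 hr2
    rw [h1, r.as_sum, map_sum]
    refine Submodule.sum_mem _ fun c hc => ?_
    rw [monomial_eq_smul, ← Ideal.Quotient.mkₐ_eq_mk B, map_smul]
    exact Submodule.smul_mem _ _ (Submodule.subset_span ⟨⟨c, hr1 c hc⟩, rfl⟩)
  exact Module.Free.of_basis (Module.Basis.mk hli hsp)

end nf

end FujNf
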