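import Pool.Agent.Lib.MP_0b721b_ag.Nf.Bc

/-!
# Project FUJ, Nf: normal forms modulo an ideal over a field, defined over small subrings

`I` an ideal of `K[x]`.  There are finitely many elements of `K` such that for every subring `B`
containing them the ideal `I ∩ B[x]` is generated by fixed elements and has the standard monomials
as a complement.
-/

set_option autoImplicit false

open MvPolynomial

namespace FujNf

variable {σ : Type*} {K : Type*} [Field K]

/-- a finite monic set dominating the leading exponents of `I` -/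
theorem exists_gb [Finite σ] (m : MonomialOrder σ) (I : Ideal (MvPolynomial σ K)) :
    ∃ G : Finset (MvPolynomial σ K), (∀ g ∈ G, g ∈ I ∧ m.Monic g) ∧
      ∀ f ∈ I, f ≠ 0 → ∃ g ∈ G, m.degree g ≤ m.degree f := by
  classical
  let E : Set (σ →₀ ℕ) := {c | ∃ f ∈ I, f ≠ 0 ∧ m.degree f = c}
  have hE : E.IsPWO := Set.isPWO_of_wellQuasiOrderedLE E
  have hfin : {c | Minimal (· ∈ E) c}.Finite := by
    refine IsAntichain.finite_of_partiallyWellOrderedOn (r := (· ≤ ·)) ?_
      (hE.mono fun c hc => hc.1)
    intro a ha b hb hab hle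
    exact hab (le_antisymm hle (hb.2 ha.1 hle))
  have hch : ∀ c : σ →₀ ℕ, ∃ g : MvPolynomial σ K, Minimal (· ∈ E) c →
      g ∈ I ∧ m.Monic g ∧ m.degree g = c := by
    intro c
    by_cases hc : Minimal (· ∈ E) c
    · obtain ⟨f, hf, hf0, hfc⟩ := hc.1
      have hl : m.leadingCoeff f ≠ 0 := MonomialOrder.leadingCoeff_ne_zero_iff.2 hf0
      have hr : IsRegular (m.leadingCoeff f)⁻¹ := IsRegular.of_ne_zero (inv_ne_zero hl)
      have hd : m.degree ((m.leadingCoeff f)⁻¹ • f) = m.degree f :=
        MonomialOrder.degree_smul_of_isRegular hr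
      refine ⟨(m.leadingCoeff f)⁻¹ • f, fun _ => ⟨?_, ?_, ?_⟩⟩
      · rw [smul_eq_C_mul]
        exact I.mul_mem_left _ hf
      · change coeff (m.degree ((m.leadingCoeff f)⁻¹ • f)) ((m.leadingCoeff f)⁻¹ • f) = 1
        rw [hd, coeff_smul, smul_eq_mul]
        exact inv_mul_cancel₀ hl
      · rw [hd, hfc]
    · exact ⟨0, fun h => absurd h hc⟩
  choose g hg using hch
  refine ⟨hfin.toFinset.image g, ?_, ?_⟩
  · intro x hx
    obtain ⟨c, hc, rfl⟩ := Finset.mem_image.1 hx
    have hc' := (Set.Finite.mem_toFinset hfin).1 hc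
    exact ⟨(hg c hc').1, (hg c hc').2.1⟩
  · intro f hf hf0
    obtain ⟨b, hb, hmin⟩ := hE.exists_le_minimal (a := m.degree f) ⟨f, hf, hf0, rfl⟩
    refine ⟨g b, Finset.mem_image.2 ⟨b, (Set.Finite.mem_toFinset hfin).2 hmin, rfl⟩, ?_⟩
    rw [(hg b hmin).2.2]
    exact hb

/-- exponents not divisible by a leading exponent of `G` -/
def Std (m : MonomialOrder σ) (G : Set (MvPolynomial σ K)) : Set (σ →₀ ℕ) :=
  {c | ∀ g ∈ G, ¬ m.degree g ≤ c}

variable {B : Type*} [CommRing B] (i : B →+* K)

theorem support_map_inj (hi : Function.Injective i) (f : MvPolynomial σ B) :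
    (map i f).support = f.support := support_map_of_injective f hi

theorem degree_map_inj (m : MonomialOrder σ) (hi : Function.Injective i) (f : MvPolynomial σ B) :
    m.degree (map i f) = m.degree f := by
  unfold MonomialOrder.degree
  rw [support_map_inj i hi]

/-- over a ring containing the coefficients of `G` -/
theorem comap_nf (m : MonomialOrder σ) (I : Ideal (MvPolynomial σ K))
    (G : Set (MvPolynomial σ K)) (hG : ∀ g ∈ G, g ∈ I ∧ m.Monic g)
    (hI : ∀ f ∈ I, f ≠ 0 → ∃ g ∈ G, m.degree g ≤ m.degree f) (hi : Function.Injective i)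
    (hr : ∀ g ∈ G, ∃ g', map i g' = g) :
    IsNf (I.comap (map i)) (Std m G) ∧
      I.comap (map i) = Ideal.span (map i ⁻¹' G) := by
  classical
  have hsub : Ideal.span (map i ⁻¹' G) ≤ I.comap (map i) :=
    Ideal.span_le.2 fun g hg => (hG _ hg).1
  have huniq : ∀ r ∈ I.comap (map i), r ∈ supIn B (Std m G) → r = 0 := by
    intro r hr1 hr2
    by_contra h0
    have h1 : map i r ≠ 0 := by
      intro h
      exact h0 (map_injective i hi (by rw [h, map_zero]))
    obtain ⟨g, hg, hle⟩ := hI _ hr1 h1
    have h2 : m.degree (map i r) ∈ r.support := by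
      rw [degree_map_inj i m hi]
      exact MonomialOrder.degree_mem_support h0
    exact hr2 _ h2 g hg hle
  have hdiv : ∀ f : MvPolynomial σ B, ∃ r ∈ supIn B (Std m G),
      f - r ∈ Ideal.span (map i ⁻¹' G) := by
    intro f
    have hu : ∀ b ∈ map i ⁻¹' G, IsUnit (m.leadingCoeff b) := by
      intro b hb
      have h1 : i (m.leadingCoeff b) = 1 := by
        have h2 := (hG _ hb).2
        unfold MonomialOrder.Monic MonomialOrder.leadingCoeff at h2
        unfold MonomialOrder.leadingCoeff
        rw [degree_map_inj i m hi, coeff_map] at h2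
        exact h2
      rw [hi (h1.trans i.map_one.symm)]
      exact isUnit_one
    obtain ⟨g, r, h1, _, h3⟩ := MonomialOrder.div_set (m := m) hu f
    refine ⟨r, ?_, ?_⟩
    · intro c hc g' hg'
      obtain ⟨b, rfl⟩ := hr g' hg'
      rw [degree_map_inj i m hi]
      exact h3 c hc b hg'
    · rw [h1, add_sub_cancel_right, Finsupp.linearCombination_apply]
      refine Ideal.sum_mem _ fun b _ => ?_
      exact Ideal.mul_mem_left _ _ (Ideal.subset_span b.2)
  refine ⟨⟨fun f => ?_, huniq⟩, le_antisymm ?_ hsub⟩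
  · obtain ⟨r, h1, h2⟩ := hdiv f
    exact ⟨r, h1, hsub h2⟩
  · intro f hf
    obtain ⟨r, h1, h2⟩ := hdiv f
    have h3 : r = 0 := by
      refine huniq r ?_ h1
      have := Ideal.sub_mem _ hf (hsub h2)
      rwa [sub_sub_cancel] at this
    rw [h3, sub_zero] at h2
    exact h2

/-- polynomials with coefficients in a subring -/
theorem exists_lift (B : Subring K) (f : MvPolynomial σ K) (hf : (f.coeffs : Set K) ⊆ B) :
    ∃ f' : MvPolynomial σ B, map B.subtype f' = f := by
  have h := (mem_range_map_iff_coeffs_subset (f := B.subtype) (x := f)).2 (by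
    intro x hx
    exact ⟨⟨x, hf hx⟩, rfl⟩)
  exact h

theorem coeffs_map_subset (B : Subring K) (f : MvPolynomial σ B) :
    ((map B.subtype f).coeffs : Set K) ⊆ B := by
  intro x hx
  obtain ⟨y, _, rfl⟩ := coe_coeffs_map B.subtype f hx
  exact y.2

/-- the intersection of an ideal with the polynomials over a subring -/
noncomputable def cut (I : Ideal (MvPolynomial σ K)) (B : Subring K) : Ideal (MvPolynomial σ B) :=
  I.comap (map B.subtype)

theorem mem_cut {I : Ideal (MvPolynomial σ K)} {B : Subring K} {f : MvPolynomial σ B} :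
    f ∈ cut I B ↔ map B.subtype f ∈ I := Iff.rfl

/-- a finite set of coefficients of a finite set of polynomials -/
noncomputable def cofs (G : Finset (MvPolynomial σ K)) : Finset K := by
  classical
  exact G.biUnion coeffs

theorem coeffs_subset_cofs {G : Finset (MvPolynomial σ K)} {g : MvPolynomial σ K} (hg : g ∈ G) :
    g.coeffs ⊆ cofs G := by
  classical
  intro x hx
  exact Finset.mem_biUnion.2 ⟨g, hg, hx⟩

theorem subtype_inj (B : Subring K) : Function.Injective B.subtype := Subtype.val_injective

/-- **normal forms over all subrings containing finitely many elements** -/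
theorem exists_std [Finite σ] (I : Ideal (MvPolynomial σ K)) :
    ∃ (S : Set (σ →₀ ℕ)) (G : Finset (MvPolynomial σ K)), (∀ g ∈ G, g ∈ I) ∧
      ∀ B : Subring K, (cofs G : Set K) ⊆ B →
        IsNf (cut I B) S ∧ cut I B = Ideal.span (map B.subtype ⁻¹' (G : Set (MvPolynomial σ K))) := by
  classical
  cases nonempty_fintype σ
  let _ : LinearOrder σ := LinearOrder.lift' (Fintype.equivFin σ) (Fintype.equivFin σ).injective
  obtain ⟨G, h1, h2⟩ := exists_gb (MonomialOrder.degLex (σ := σ)) I
  refine ⟨Std MonomialOrder.degLex (G : Set (MvPolynomial σ K)), G, fun g hg => (h1 g hg).1, ?_⟩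
  intro B hB
  exact comap_nf B.subtype MonomialOrder.degLex I (G : Set (MvPolynomial σ K)) h1 h2
    (subtype_inj B) fun g hg => exists_lift B g
      ((Finset.coe_subset.2 (coeffs_subset_cofs hg)).trans hB)

end FujNf
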